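import Pool.Agent.H23.FracHelly

set_option autoImplicit false
set_option maxSynthPendingDepth 3

namespace Pool.Agent.Results.MP_ff3a4f_co.FracKirchberger

open Filter Topology

/-- Some hyperplane `{x | ⟪w, x⟫ = c}` has `P` in one of its open half-spaces and `Q` in the
other. -/
def Sep {d : ℕ} (P Q : Set (EuclideanSpace ℝ (Fin d))) : Prop :=
  ∃ (w : EuclideanSpace ℝ (Fin d)) (c : ℝ), w ≠ 0 ∧ (∀ a ∈ P, inner ℝ w a < c) ∧
    ∀ b ∈ Q, c < inner ℝ w b

/-- General position: any at most `d + 1` points of `X` are affinely independent. -/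
def GenPos {d : ℕ} (X : Set (EuclideanSpace ℝ (Fin d))) : Prop :=
  ∀ S : Finset (EuclideanSpace ℝ (Fin d)), (S : Set (EuclideanSpace ℝ (Fin d))) ⊆ X →
    S.card ≤ d + 1 → AffineIndependent ℝ (fun p : S => (p : EuclideanSpace ℝ (Fin d)))

/-- The good subsets: `(d + 2)`-element subsets `S` of `A ∪ B` such that a hyperplane separates
`A ∩ S` from `B ∩ S`. -/
def Good {d : ℕ} (A B : Set (EuclideanSpace ℝ (Fin d))) :
    Set (Finset (EuclideanSpace ℝ (Fin d))) :=
  {S | (S : Set (EuclideanSpace ℝ (Fin d))) ⊆ A ∪ B ∧ S.card = d + 2 ∧ Sep (A ∩ S) (B ∩ S)}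

/-- The assertion for the fraction `1 - ε` of good subsets and the fraction `1 - δ` of points. -/
def Holds (d : ℕ) (ε δ : ℝ) : Prop :=
  ∀ (N : ℕ) (A B : Finset (EuclideanSpace ℝ (Fin d))), Disjoint A B → A.card = N → B.card = N →
    GenPos ((A : Set (EuclideanSpace ℝ (Fin d))) ∪ B) →
    (1 - ε) * ((2 * N).choose (d + 2) : ℝ) ≤
      (Good (A : Set (EuclideanSpace ℝ (Fin d))) B).ncard →
    ∃ A' ⊆ A, ∃ B' ⊆ B, Sep (A' : Set (EuclideanSpace ℝ (Fin d))) B' ∧
      (1 - δ) * N ≤ (A'.card : ℝ) ∧ (1 - δ) * N ≤ (B'.card : ℝ)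

lemma sep_empty {d : ℕ} (hd : 1 ≤ d) : Sep (d := d) ∅ ∅ :=
  ⟨EuclideanSpace.single ⟨0, hd⟩ 1, 0, by simp, by simp, by simp⟩

lemma holds_one {d : ℕ} (hd : 1 ≤ d) (ε : ℝ) : Holds d ε 1 := fun N A B _ _ _ _ _ =>
  ⟨∅, by simp, ∅, by simp, by simpa using sep_empty hd, by simp, by simp⟩

lemma Holds.mono {d : ℕ} {ε ε' δ δ' : ℝ} (h : Holds d ε δ) (h1 : ε' ≤ ε) (h2 : δ ≤ δ') :
    Holds d ε' δ' := by
  intro N A B a1 a2 a3 a4 a5
  obtain ⟨A', b1, B', b2, b3, b4, b5⟩ := h N A B a1 a2 a3 a4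
    (le_trans (by gcongr) a5)
  exact ⟨A', b1, B', b2, b3, le_trans (by gcongr) b4, le_trans (by gcongr) b5⟩

lemma sep_of {d : ℕ} {P Q : Finset (EuclideanSpace ℝ (Fin d))} (hP : P.Nonempty) (hQ : Q.Nonempty)
    (w : EuclideanSpace ℝ (Fin d)) (c : ℝ) (h1 : ∀ a ∈ P, inner ℝ w a < c)
    (h2 : ∀ b ∈ Q, c < inner ℝ w b) : Sep (P : Set (EuclideanSpace ℝ (Fin d))) Q := by
  refine ⟨w, c, fun h => ?_, h1, h2⟩
  obtain ⟨a, ha⟩ := hP
  obtain ⟨b, hb⟩ := hQ
  have := (h1 a ha).trans (h2 b hb)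
  simp [h] at this

lemma main {d : ℕ} (hd : 1 ≤ d) {δ : ℝ} (h0 : 0 < δ) (h1 : δ < 1) : ∃ ε, 0 < ε ∧ Holds d ε δ := by
  classical
  obtain ⟨ε, hε, H⟩ := H23.FracHelly.frac (d + 1) (1 - δ / 2) (by linarith) (by linarith)
  refine ⟨ε, hε, fun N A B hAB hA hB hg hc => ?_⟩
  have hcard : (A ∪ B).card = 2 * N := by rw [Finset.card_union_of_disjoint hAB]; omega
  rcases Nat.eq_zero_or_pos N with rfl | hN
  · exact ⟨∅, by simp, ∅, by simp, by simpa using sep_empty hd, by simp, by simp⟩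
  have hN' : (0 : ℝ) < N := by exact_mod_cast hN
  by_cases hs : 2 * N ≤ d + 1
  · have ha := hg (A ∪ B) (by simp) (by omega)
    have hi := ha.convexHull_inter Finset.subset_union_left Finset.subset_union_right
    rw [(Finset.disjoint_coe.mpr hAB).inter_eq, convexHull_empty] at hi
    obtain ⟨f, u, v, f1, f2, f3⟩ := geometric_hahn_banach_compact_closed (convex_convexHull ℝ _)
      (A.finite_toSet.isCompact_convexHull ℝ) (convex_convexHull ℝ _)
      (B.finite_toSet.isCompact_convexHull ℝ).isClosed (Set.disjoint_iff_inter_eq_empty.mpr hi.symm)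
    refine ⟨A, le_rfl, B, le_rfl, sep_of (Finset.card_pos.mp (by omega))
      (Finset.card_pos.mp (by omega)) ((InnerProductSpace.toDual ℝ _).symm f) u
      (fun a ha => ?_) (fun b hb => ?_), by rw [hA]; nlinarith, by rw [hB]; nlinarith⟩
    · rw [InnerProductSpace.toDual_symm_apply]
      exact f1 a (subset_convexHull ℝ _ ha)
    · rw [InnerProductSpace.toDual_symm_apply]
      exact f2.trans (f3 b (subset_convexHull ℝ _ hb))
  let L : EuclideanSpace ℝ (Fin d) → WithLp 2 (EuclideanSpace ℝ (Fin d) × ℝ) →L[ℝ] ℝ := fun p =>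
    (if p ∈ A then (1 : ℝ) else -1) •
      (WithLp.sndL 2 ℝ _ _ - (innerSL ℝ p).comp (WithLp.fstL 2 ℝ _ _))
  have hL : ∀ p x, L p x = (if p ∈ A then (1 : ℝ) else -1) * (x.snd - inner ℝ x.fst p) := by
    intro p x
    by_cases h : p ∈ A <;> simp [L, h, real_inner_comm]
  obtain ⟨x, hx⟩ := H (WithLp 2 (EuclideanSpace ℝ (Fin d) × ℝ)) _ (fun p => L p ⁻¹' Set.Ici 1)
    (by rw [(WithLp.linearEquiv 2 ℝ _).finrank_eq]; simp)
    (fun p => isClosed_Ici.preimage (L p).continuous)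
    (fun p => (convex_Ici 1).linear_preimage (L p).toLinearMap) (A ∪ B) (by omega) (by
      have e1 := Finset.card_filter_add_card_filter_not
        (s := (A ∪ B).powersetCard (d + 1 + 1)) fun S => (⋂ i ∈ S, L i ⁻¹' Set.Ici 1).Nonempty
      rw [Finset.card_powersetCard, hcard] at e1
      have e2 : (Good (A : Set (EuclideanSpace ℝ (Fin d))) B).ncard ≤
          (((A ∪ B).powersetCard (d + 1 + 1)).filter
            fun S => (⋂ i ∈ S, L i ⁻¹' Set.Ici 1).Nonempty).card := by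
        rw [← Set.ncard_coe_finset]
        refine Set.ncard_le_ncard ?_ (Finset.finite_toSet _)
        rintro S ⟨s1, s2, w, c, -, s3, s4⟩
        refine Finset.mem_coe.mpr (Finset.mem_filter.mpr ⟨Finset.mem_powersetCard.mpr
          ⟨fun p hp => by simpa using s1 hp, s2⟩, ?_⟩)
        have hp : ∀ p ∈ S, 0 < L p (WithLp.toLp 2 (w, c)) := by
          intro p hp
          rw [hL]
          by_cases h : p ∈ A
          · simpa [h] using s3 p ⟨h, hp⟩
          · simpa [h] using s4 p ⟨(s1 hp).resolve_left h, hp⟩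
        refine ⟨(∑ p ∈ S, (L p (WithLp.toLp 2 (w, c)))⁻¹) • WithLp.toLp 2 (w, c),
          Set.mem_iInter₂.mpr fun p hp' => ?_⟩
        show 1 ≤ L p _
        rw [map_smul, smul_eq_mul, ← mul_inv_le_iff₀ (hp p hp'), one_mul]
        exact Finset.single_le_sum (f := fun p => (L p (WithLp.toLp 2 (w, c)))⁻¹)
          (fun q hq => (inv_pos.mpr (hp q hq)).le) hp'
      have e3 := (Nat.cast_le (α := ℝ)).mpr e2
      have e4 := congrArg (Nat.cast : ℕ → ℝ) e1
      rw [Nat.cast_add] at e4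
      rw [hcard]
      have e5 := eq_sub_of_add_eq' e4
      refine le_trans (le_of_eq (by convert e5)) ?_
      change _ * ((2 * N).choose (d + 1 + 1) : ℝ) ≤ _ at hc
      linarith)
  rw [hcard] at hx
  let A' := A.filter fun p => 1 ≤ L p x
  let B' := B.filter fun p => 1 ≤ L p x
  have e1 : (1 - δ / 2) * ((2 * N : ℕ) : ℝ) ≤ A'.card + B'.card := by
    refine hx.trans ?_
    rw [← Nat.cast_add, Nat.cast_le]
    refine le_trans (Finset.card_le_card fun p hp => ?_) (Finset.card_union_le A' B')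
    rw [← Finset.filter_union]
    exact Finset.mem_filter.mpr ⟨(Finset.mem_filter.mp hp).1, (Finset.mem_filter.mp hp).2⟩
  have e2 : (A'.card : ℝ) ≤ N := by exact_mod_cast hA ▸ Finset.card_filter_le _ _
  have e3 : (B'.card : ℝ) ≤ N := by exact_mod_cast hB ▸ Finset.card_filter_le _ _
  push_cast at e1
  have e4 : (1 - δ) * N ≤ (A'.card : ℝ) := by linarith
  have e5 : (1 - δ) * N ≤ (B'.card : ℝ) := by linarith
  have e6 : 0 < (1 - δ) * N := mul_pos (by linarith) hN'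
  refine ⟨A', Finset.filter_subset _ _, B', Finset.filter_subset _ _,
    sep_of (Finset.card_pos.mp (by exact_mod_cast e6.trans_le e4))
      (Finset.card_pos.mp (by exact_mod_cast e6.trans_le e5)) x.fst x.snd
      (fun a ha => ?_) (fun b hb => ?_), e4, e5⟩
  · obtain ⟨a1, a2⟩ := Finset.mem_filter.mp ha
    rw [hL, if_pos a1] at a2
    linarith
  · obtain ⟨a1, a2⟩ := Finset.mem_filter.mp hb
    rw [hL, if_neg (Finset.disjoint_right.mp hAB a1)] at a2
    linarith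

theorem result (d : ℕ) (hd : 1 ≤ d) :
    ∃ g : ℝ → ℝ, Tendsto g (𝓝[>] 0) (𝓝 0) ∧ ∀ ε : ℝ, 0 < ε → Holds d ε (g ε) := by
  have hb : ∀ ε, BddBelow {δ : ℝ | 0 ≤ δ ∧ Holds d ε δ} := fun ε => ⟨0, fun δ h => h.1⟩
  have hn : ∀ ε, {δ : ℝ | 0 ≤ δ ∧ Holds d ε δ}.Nonempty := fun ε =>
    ⟨1, zero_le_one, holds_one hd ε⟩
  refine ⟨fun ε => sInf {δ : ℝ | 0 ≤ δ ∧ Holds d ε δ} + ε, ?_, fun ε hε => ?_⟩
  · have h1 : Tendsto (fun ε => sInf {δ : ℝ | 0 ≤ δ ∧ Holds d ε δ}) (𝓝[>] 0) (𝓝 0) := by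
      refine tendsto_order.mpr ⟨fun a ha => Eventually.of_forall fun ε =>
        ha.trans_le (le_csInf (hn ε) fun δ h => h.1), fun a ha => ?_⟩
      obtain ⟨ε, hε, h⟩ := main hd (δ := min (a / 2) (1 / 2)) (by positivity)
        ((min_le_right _ _).trans_lt (by norm_num))
      filter_upwards [Ioo_mem_nhdsGT hε] with ε' h'
      exact (csInf_le (hb ε') ⟨by positivity, h.mono h'.2.le le_rfl⟩).trans_lt
        ((min_le_left _ _).trans_lt (by linarith))
    simpa using h1.add (tendsto_nhdsWithin_of_tendsto_nhds tendsto_id)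
  · obtain ⟨δ, h, h'⟩ := exists_lt_of_csInf_lt (hn ε) (lt_add_of_pos_right _ hε)
    exact h.2.mono le_rfl h'.le

end Pool.Agent.Results.MP_ff3a4f_co.FracKirchberger
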